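import Pool.Agent.L5helper32.GR.Defs

set_option autoImplicit false

open Finset MeasureTheory ProbabilityTheory

namespace Pool.Agent.L5helper32.GR

/-- the uniform law on `0, …, r - 1` -/
noncomputable def law (r : ℕ) : Measure ℕ :=
  if h : (range r).Nonempty then (PMF.uniformOfFinset (range r) h).toMeasure else Measure.dirac 0

instance law_prob (r : ℕ) : IsProbabilityMeasure (law r) := by
  unfold law
  split_ifs
  · infer_instance
  · infer_instance

theorem law_real {r t : ℕ} (ht : t < r) : (law r).real {t} = 1 / r := by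
  have h : (range r).Nonempty := ⟨t, mem_range.2 ht⟩
  unfold law
  rw [dif_pos h, measureReal_def, PMF.toMeasure_apply_singleton _ _ (measurableSet_singleton t),
    PMF.uniformOfFinset_apply_of_mem h (mem_range.2 ht)]
  simp

theorem exists_model : ∃ (Ω : Type) (_ : MeasurableSpace Ω) (μ : Measure Ω)
    (T : ℕ × ℕ × ℕ → Ω → ℕ), IsProbabilityMeasure μ ∧ Model μ T := by
  refine ⟨(i : ℕ × ℕ × ℕ) → ℕ, inferInstance,
    Measure.infinitePi (fun i : ℕ × ℕ × ℕ => law i.2.2), fun i ω => ω i, inferInstance,
    ⟨fun i => measurable_pi_apply i, ?_, fun z c r hr t ht => ?_⟩⟩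
  · exact iIndepFun_infinitePi (P := fun i : ℕ × ℕ × ℕ => law i.2.2) (X := fun _ x => x)
      fun _ => measurable_id
  · have h1 := (measurePreserving_eval_infinitePi (fun i : ℕ × ℕ × ℕ => law i.2.2)
      (z, c, r)).measureReal_preimage (s := {t}) (measurableSet_singleton t).nullMeasurableSet
    rw [← law_real ht, ← h1]
    rfl

end Pool.Agent.L5helper32.GR
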